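import Pool.Agent.helper51.QS.SpecB
import Pool.Agent.helper13.PC.ASA
import Pool.Agent.helper16.PC.CONR

/-!
# Project qs (MP_74cfa5_ag), row TEQ: local equations in a factorial local ring
-/

set_option autoImplicit false

namespace Pool.Agent.QS

open Pool.Agent.PC MvPolynomial

universe u

section TEQ

variable {A K : Type u} [CommRing A] [IsDomain A] [IsNoetherianRing A] [Field K] [Algebra A K]
  [IsFractionRing A K] (m : Ideal A) [m.IsMaximal]

/-- primes of height one are principal in the local ring -/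
theorem TEQ_prm [UniqueFactorizationMonoid (Localization.AtPrime m)] (Q : Ideal A)
    (hQ : Q.IsPrime) (hh : Q.height = 1) (hQm : Q ≤ m) :
    ∃ q : A, Prime (algebraMap A (Localization.AtPrime m) q) ∧ ∀ b : A, b ∈ Q ↔
      algebraMap A (Localization.AtPrime m) q ∣ algebraMap A (Localization.AtPrime m) b := by
  have hdis : Disjoint (m.primeCompl : Set A) (Q : Set A) := by
    rw [Set.disjoint_left]
    intro x hx hxQ
    exact hx (hQm hxQ)
  have hP : (Q.map (algebraMap A (Localization.AtPrime m))).IsPrime :=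
    IsLocalization.isPrime_of_isPrime_disjoint m.primeCompl (Localization.AtPrime m) Q hQ hdis
  have hht : (Q.map (algebraMap A (Localization.AtPrime m))).height = 1 := by
    rw [IsLocalization.height_map_of_disjoint m.primeCompl Q hdis, hh]
  haveI : IsDomain (Localization.AtPrime m) :=
    IsLocalization.isDomain_localization m.primeCompl_le_nonZeroDivisors
  obtain ⟨π, hπ, hπp⟩ := hP.exists_mem_prime_of_ne_bot (Ideal.ne_bot_of_height_eq_one hht)
  have hspan := Ideal.eq_span_singleton_of_height_eq_one hht hπ hπp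
  obtain ⟨⟨a, s⟩, hs⟩ := IsLocalization.surj m.primeCompl π
  have hs' : π * algebraMap A (Localization.AtPrime m) s =
    algebraMap A (Localization.AtPrime m) a := hs
  have hu : IsUnit (algebraMap A (Localization.AtPrime m) (s : A)) :=
    IsLocalization.map_units (Localization.AtPrime m) s
  have hass : Associated π (algebraMap A (Localization.AtPrime m) a) := by
    obtain ⟨w, hw⟩ := hu
    exact ⟨w, by rw [hw, hs']⟩
  refine ⟨a, hass.prime hπp, fun b => ?_⟩
  have h1 : b ∈ Q ↔ algebraMap A (Localization.AtPrime m) b ∈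
      Q.map (algebraMap A (Localization.AtPrime m)) := by
    have h2 := IsLocalization.comap_map_of_isPrime_disjoint m.primeCompl
      (Localization.AtPrime m) hQ hdis
    constructor
    · intro h
      exact Ideal.mem_map_of_mem _ h
    · intro h
      rw [← h2]
      exact h
  rw [h1, hspan, Ideal.mem_span_singleton]
  exact hass.dvd_iff_dvd_left

/-- a prime element of the local ring gives a prime of height one -/
theorem TEQ_ht (π : Localization.AtPrime m) (hπ : Prime π) :
    ((Ideal.span {π}).comap (algebraMap A (Localization.AtPrime m))).IsPrime ∧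
    ((Ideal.span {π}).comap (algebraMap A (Localization.AtPrime m))).height = 1 ∧
    (Ideal.span {π}).comap (algebraMap A (Localization.AtPrime m)) ≤ m := by
  haveI : IsDomain (Localization.AtPrime m) :=
    IsLocalization.isDomain_localization m.primeCompl_le_nonZeroDivisors
  haveI : IsNoetherianRing (Localization.AtPrime m) :=
    IsLocalization.isNoetherianRing m.primeCompl (Localization.AtPrime m) inferInstance
  haveI hp : (Ideal.span {π}).IsPrime := (Ideal.span_singleton_prime hπ.ne_zero).mpr hπ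
  refine ⟨hp.comap _, ?_, ?_⟩
  · have h1 := IsLocalization.height_under m.primeCompl (Ideal.span {π})
    rw [Ideal.under_def] at h1
    rw [h1]
    exact Ideal.height_span_singleton_eq_one_of_mem_nonZeroDivisors
      (mem_nonZeroDivisors_of_ne_zero hπ.ne_zero) hπ.not_unit
  · intro b hb
    by_contra hbm
    rw [Ideal.mem_comap, Ideal.mem_span_singleton] at hb
    have hu : IsUnit (algebraMap A (Localization.AtPrime m) b) :=
      IsLocalization.map_units (Localization.AtPrime m) (⟨b, hbm⟩ : m.primeCompl)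
    exact hπ.not_unit (isUnit_of_dvd_unit hb hu)

/-- divisibility in the local ring -/
theorem TEQ_dvd (q b : A) : algebraMap A (Localization.AtPrime m) q ∣
    algebraMap A (Localization.AtPrime m) b ↔ ∃ s c : A, s ∉ m ∧ s * b = q * c := by
  have hinj : Function.Injective (algebraMap A (Localization.AtPrime m)) :=
    IsLocalization.injective _ m.primeCompl_le_nonZeroDivisors
  constructor
  · rintro ⟨z, hz⟩
    obtain ⟨⟨c, s⟩, hs⟩ := IsLocalization.surj m.primeCompl z
    have hs' : z * algebraMap A (Localization.AtPrime m) s =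
      algebraMap A (Localization.AtPrime m) c := hs
    refine ⟨s, c, s.2, hinj ?_⟩
    rw [map_mul, map_mul, hz, ← hs']
    ring
  · rintro ⟨s, c, hs, h⟩
    have hu : IsUnit (algebraMap A (Localization.AtPrime m) s) :=
      IsLocalization.map_units (Localization.AtPrime m) (⟨s, hs⟩ : m.primeCompl)
    have h1 := congrArg (algebraMap A (Localization.AtPrime m)) h
    rw [map_mul, map_mul] at h1
    exact (hu.dvd_mul_left).mp ⟨_, h1⟩

variable {m}

theorem TEQ_loc0 {Q : Ideal A} {v : K → ℤ} (hQ : Q.IsPrime) (hv : LocV Q v) (a : A) :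
    Ge v 0 (algebraMap A K a) :=
  (hv.2.1 _).mpr ⟨a, 1, fun h => hQ.ne_top ((Ideal.eq_top_iff_one Q).mpr h), by
    rw [map_one, div_one]⟩

theorem TEQ_ne {a : A} (ha : a ≠ 0) : algebraMap A K a ≠ 0 := fun h =>
  ha (IsFractionRing.injective A K (by rw [h, map_zero]))

theorem TEQ_loc_nonneg {Q : Ideal A} {v : K → ℤ} (hQ : Q.IsPrime) (hv : LocV Q v) (a : A)
    (ha : a ≠ 0) : 0 ≤ v (algebraMap A K a) :=
  (TEQ_loc0 hQ hv a).resolve_left (TEQ_ne ha)

theorem TEQ_loc_mem {Q : Ideal A} {v : K → ℤ} (hv : LocV Q v) (a : A)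
    (ha : a ≠ 0) (h : a ∈ Q) : 1 ≤ v (algebraMap A K a) :=
  ((hv.2.2 a).mp h).resolve_left (TEQ_ne ha)

theorem TEQ_loc_nmem {Q : Ideal A} {v : K → ℤ} (hQ : Q.IsPrime) (hv : LocV Q v) (a : A)
    (h : a ∉ Q) : v (algebraMap A K a) = 0 := by
  have ha : a ≠ 0 := fun h0 => h (by rw [h0]; exact Q.zero_mem)
  have h1 := TEQ_loc_nonneg hQ hv a ha
  by_contra h2
  exact h ((hv.2.2 a).mpr (Or.inr (by omega)))

/-- elements without poles at the primes of height one below `m` are regular at `m` -/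
theorem TEQ_reg (hLVQ : LVQ_stmt.{u}) [IsIntegrallyClosed A]
    [UniqueFactorizationMonoid (Localization.AtPrime m)] (x : K) (hx : x ≠ 0)
    (h : ∀ (Q : Ideal A) (v : K → ℤ), Q.IsPrime → Q.height = 1 → Q ≤ m → LocV Q v → 0 ≤ v x) :
    ∃ u s : A, s ∉ m ∧ x = algebraMap A K u / algebraMap A K s := by
  haveI : IsDomain (Localization.AtPrime m) :=
    IsLocalization.isDomain_localization m.primeCompl_le_nonZeroDivisors
  have hinj : Function.Injective (algebraMap A (Localization.AtPrime m)) :=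
    IsLocalization.injective _ m.primeCompl_le_nonZeroDivisors
  obtain ⟨a, b, hb, hab⟩ := IsFractionRing.div_surjective (A := A) x
  have hb0 : b ≠ 0 := nonZeroDivisors.ne_zero hb
  have ha0 : a ≠ 0 := by
    rintro rfl
    rw [map_zero, zero_div] at hab
    exact hx hab.symm
  have hb1 : algebraMap A (Localization.AtPrime m) b ≠ 0 := fun h0 => hb0 (hinj (by
    rw [h0, map_zero]))
  obtain ⟨a', b', c', hrel, hca, hcb⟩ := UniqueFactorizationMonoid.exists_reduced_factors'
    (algebraMap A (Localization.AtPrime m) a) (algebraMap A (Localization.AtPrime m) b) hb1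
  have hc0 : c' ≠ 0 := by
    rintro rfl
    rw [zero_mul] at hcb
    exact hb1 hcb.symm
  obtain ⟨⟨a₁, s₁⟩, hs₁⟩ := IsLocalization.surj m.primeCompl a'
  obtain ⟨⟨b₁, s₂⟩, hs₂⟩ := IsLocalization.surj m.primeCompl b'
  have e1 : a' * algebraMap A (Localization.AtPrime m) s₁ =
    algebraMap A (Localization.AtPrime m) a₁ := hs₁
  have e2 : b' * algebraMap A (Localization.AtPrime m) s₂ =
    algebraMap A (Localization.AtPrime m) b₁ := hs₂
  have hs₁0 : (s₁ : A) ≠ 0 := fun h0 => s₁.2 (by rw [h0]; exact m.zero_mem)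
  have hs₂0 : (s₂ : A) ≠ 0 := fun h0 => s₂.2 (by rw [h0]; exact m.zero_mem)
  have hcross : a * (b₁ * s₁) = b * (a₁ * s₂) := by
    apply hinj
    rw [map_mul, map_mul, map_mul, map_mul, ← e1, ← e2, ← hca, ← hcb]
    ring
  have hb₁0 : b₁ ≠ 0 := by
    rintro rfl
    rw [map_zero] at e2
    have hu : IsUnit (algebraMap A (Localization.AtPrime m) (s₂ : A)) :=
      IsLocalization.map_units (Localization.AtPrime m) s₂
    have h2 : b' = 0 := by
      rcases mul_eq_zero.mp e2 with h3 | h3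
      · exact h3
      · exact absurd h3 hu.ne_zero
    rw [h2, mul_zero] at hcb
    exact hb1 hcb.symm
  have ha₁0 : a₁ ≠ 0 := by
    rintro rfl
    rw [zero_mul, mul_zero] at hcross
    rcases mul_eq_zero.mp hcross with h3 | h3
    · exact ha0 h3
    · rcases mul_eq_zero.mp h3 with h4 | h4
      · exact hb₁0 h4
      · exact hs₁0 h4
  have hxe : x = algebraMap A K (a₁ * s₂) / algebraMap A K (b₁ * s₁) := by
    rw [← hab, div_eq_div_iff (TEQ_ne hb0) (TEQ_ne (mul_ne_zero hb₁0 hs₁0)), ← map_mul, ← map_mul,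
      hcross, mul_comm]
  by_cases hbm : b₁ ∈ m
  · exfalso
    have hbu : ¬ IsUnit (algebraMap A (Localization.AtPrime m) b₁) := by
      rw [IsLocalization.AtPrime.isUnit_to_map_iff (Localization.AtPrime m) m]
      exact fun h => h hbm
    have hbu' : ¬ IsUnit b' := by
      intro hu
      apply hbu
      rw [← e2]
      exact hu.mul (IsLocalization.map_units (Localization.AtPrime m) s₂)
    have hb'0 : b' ≠ 0 := by
      rintro rfl
      rw [mul_zero] at hcb
      exact hb1 hcb.symm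
    obtain ⟨π, hirr, hπb⟩ := WfDvdMonoid.exists_irreducible_factor hbu' hb'0
    have hπ : Prime π := UniqueFactorizationMonoid.irreducible_iff_prime.mp hirr
    obtain ⟨hQ, hQh, hQm⟩ := TEQ_ht m π hπ
    obtain ⟨v, hv⟩ := hLVQ A K _ hQ hQh
    have h0 := h _ v hQ hQh hQm hv
    have hbQ : b₁ ∈ (Ideal.span {π}).comap (algebraMap A (Localization.AtPrime m)) := by
      rw [Ideal.mem_comap, Ideal.mem_span_singleton, ← e2]
      exact hπb.mul_right _
    have haQ : a₁ ∉ (Ideal.span {π}).comap (algebraMap A (Localization.AtPrime m)) := by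
      intro haQ
      rw [Ideal.mem_comap, Ideal.mem_span_singleton, ← e1] at haQ
      rcases hπ.dvd_or_dvd haQ with h5 | h5
      · exact hπ.not_unit (hrel h5 hπb)
      · exact hπ.not_unit (isUnit_of_dvd_unit h5
          (IsLocalization.map_units (Localization.AtPrime m) s₁))
    have hsQ : (s₂ : A) ∉ (Ideal.span {π}).comap (algebraMap A (Localization.AtPrime m)) :=
      fun h6 => s₂.2 (hQm h6)
    rw [hxe, ASA_div hv.1 (TEQ_ne (mul_ne_zero ha₁0 hs₂0)) (TEQ_ne (mul_ne_zero hb₁0 hs₁0)),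
      map_mul, map_mul, hv.1.mul _ _ (TEQ_ne ha₁0) (TEQ_ne hs₂0),
      hv.1.mul _ _ (TEQ_ne hb₁0) (TEQ_ne hs₁0)] at h0
    have h7 := TEQ_loc_nmem hQ hv a₁ haQ
    have h8 := TEQ_loc_nmem hQ hv (s₂ : A) hsQ
    have h9 := TEQ_loc_mem hv b₁ hb₁0 hbQ
    have h10 := TEQ_loc_nonneg hQ hv (s₁ : A) hs₁0
    omega
  · refine ⟨a₁ * s₂, b₁ * s₁, fun h5 => ?_, hxe⟩
    rcases (inferInstance : m.IsPrime).mem_or_mem h5 with h6 | h6
    · exact hbm h6
    · exact s₁.2 h6

end TEQ

theorem TEQ (hLVQ : LVQ_stmt.{u}) : TEQ_stmt.{u} := by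
  intro A K _ _ _ _ _ _ _ m _ hUFD I hrad hI hIm
  classical
  haveI : UniqueFactorizationMonoid (Localization.AtPrime m) := hUFD
  have hinj : Function.Injective (algebraMap A (Localization.AtPrime m)) :=
    IsLocalization.injective _ m.primeCompl_le_nonZeroDivisors
  -- choice of the factors
  have hch : ∀ Q : Ideal A, ∃ g : A, (Q.IsPrime → Q.height = 1 →
      (Q ≤ m → Prime (algebraMap A (Localization.AtPrime m) g) ∧ ∀ b : A, b ∈ Q ↔
        algebraMap A (Localization.AtPrime m) g ∣ algebraMap A (Localization.AtPrime m) b) ∧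
      (¬ Q ≤ m → g ∈ Q ∧ g ∉ m)) := by
    intro Q
    by_cases hQm : Q ≤ m
    · by_cases hQ : Q.IsPrime
      · by_cases hh : Q.height = 1
        · obtain ⟨q, hq⟩ := TEQ_prm m Q hQ hh hQm
          exact ⟨q, fun _ _ => ⟨fun _ => hq, fun h => absurd hQm h⟩⟩
        · exact ⟨0, fun _ h => absurd h hh⟩
      · exact ⟨0, fun h => absurd h hQ⟩
    · obtain ⟨g, h1, h2⟩ := SetLike.not_le_iff_exists.mp hQm
      exact ⟨g, fun _ _ => ⟨fun h => absurd h hQm, fun _ => ⟨h1, h2⟩⟩⟩
  choose g hg using hch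
  have hfin : I.minimalPrimes.Finite := I.finite_minimalPrimes_of_isNoetherianRing A
  set M : Finset (Ideal A) := hfin.toFinset with hM
  have hMmem : ∀ Q, Q ∈ M ↔ Q ∈ I.minimalPrimes := fun Q => by rw [hM, Set.Finite.mem_toFinset]
  set t : A := ∏ Q ∈ M, g Q with ht
  -- membership
  have hgQ : ∀ Q ∈ M, g Q ∈ Q := by
    intro Q hQ
    have h1 := (hMmem Q).mp hQ
    have h2 := hg Q h1.1.1 (hI Q h1)
    by_cases hQm : Q ≤ m
    · exact ((h2.1 hQm).2 _).mpr dvd_rfl
    · exact (h2.2 hQm).1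
  have hg0 : ∀ Q ∈ M, g Q ≠ 0 := by
    intro Q hQ h0
    have h1 := (hMmem Q).mp hQ
    have h2 := hg Q h1.1.1 (hI Q h1)
    by_cases hQm : Q ≤ m
    · have h3 := (h2.1 hQm).1.ne_zero
      rw [h0, map_zero] at h3
      exact h3 rfl
    · exact (h2.2 hQm).2 (by rw [h0]; exact m.zero_mem)
  have ht0 : t ≠ 0 := Finset.prod_ne_zero_iff.mpr hg0
  have htI : t ∈ I := by
    rw [← hrad.radical, ← Ideal.sInf_minimalPrimes, Ideal.mem_sInf]
    intro Q hQ
    have h1 : g Q ∈ Q := hgQ Q ((hMmem Q).mpr hQ)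
    exact Q.mem_of_dvd (Finset.dvd_prod_of_mem g ((hMmem Q).mpr hQ)) h1
  -- if a factor lies in `Q` then it is the factor of `Q`
  have heq : ∀ Q : Ideal A, Q.IsPrime → Q.height = 1 → Q ≤ m → ∀ Q' ∈ M, g Q' ∈ Q → Q' = Q := by
    intro Q hQ hh hQm Q' hQ' hmem
    have h1 := (hMmem Q').mp hQ'
    have h2 := hg Q' h1.1.1 (hI Q' h1)
    by_cases hQm' : Q' ≤ m
    · haveI := h1.1.1
      have hle : Q' ≤ Q := by
        intro b hb
        obtain ⟨s, c, hs, hsc⟩ := (TEQ_dvd m _ _).mp (((h2.1 hQm').2 b).mp hb)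
        have h3 : s * b ∈ Q := by
          rw [hsc]
          exact Q.mul_mem_right _ hmem
        rcases hQ.mem_or_mem h3 with h4 | h4
        · exact absurd (hQm h4) hs
        · exact h4
      exact Ideal.eq_of_le_of_height_le _ hle (by rw [hh, hI Q' h1])
    · exact absurd (hQm hmem) (h2.2 hQm').2
  -- the value of `t`
  have hvt0 : ∀ (Q : Ideal A) (v : K → ℤ), Q.IsPrime → Q.height = 1 → Q ≤ m → LocV Q v →
      ¬ I ≤ Q → v (algebraMap A K t) = 0 := by
    intro Q v hQ hh hQm hv hIQ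
    apply TEQ_loc_nmem hQ hv
    intro htQ
    rw [ht, hQ.prod_mem_iff] at htQ
    obtain ⟨Q', hQ', h1⟩ := htQ
    have h2 := heq Q hQ hh hQm Q' hQ' h1
    subst h2
    exact hIQ ((hMmem _).mp hQ').1.2
  have hvt1 : ∀ (Q : Ideal A) (v : K → ℤ), Q.IsPrime → Q.height = 1 → Q ≤ m → LocV Q v →
      I ≤ Q → v (algebraMap A K t) ≤ 1 := by
    intro Q v hQ hh hQm hv hIQ
    obtain ⟨Q', hQ', hle⟩ := Ideal.exists_minimalPrimes_le hIQ
    haveI := hQ'.1.1
    have h2 : Q' = Q := Ideal.eq_of_le_of_height_le _ hle (by rw [hh, hI Q' hQ'])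
    subst h2
    have hmemM : Q' ∈ M := (hMmem _).mpr hQ'
    have h3 : t = g Q' * ∏ Q ∈ M.erase Q', g Q := (Finset.mul_prod_erase M g hmemM).symm
    have h4 : ∏ Q ∈ M.erase Q', g Q ∉ Q' := by
      rw [hQ.prod_mem_iff]
      rintro ⟨P, hP, hPm⟩
      exact (Finset.mem_erase.mp hP).1 (heq Q' hQ hh hQm P (Finset.mem_erase.mp hP).2 hPm)
    have h5 : ∏ Q ∈ M.erase Q', g Q ≠ 0 := fun h => h4 (by rw [h]; exact Q'.zero_mem)
    have h6 := hg0 Q' hmemM
    rw [h3, map_mul, hv.1.mul _ _ (TEQ_ne h6) (TEQ_ne h5), TEQ_loc_nmem hQ hv _ h4, add_zero]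
    -- the value of `g Q'`
    obtain ⟨w, hw0, hw1⟩ := hv.1.one
    obtain ⟨a, s, hs, hws⟩ := (hv.2.1 w).mp (Or.inr (by omega))
    have hs0 : s ≠ 0 := fun h => hs (by rw [h]; exact Q'.zero_mem)
    have ha0 : a ≠ 0 := by
      rintro rfl
      rw [map_zero, zero_div] at hws
      exact hw0 hws
    have hva : v (algebraMap A K a) = 1 := by
      rw [hws, ASA_div hv.1 (TEQ_ne ha0) (TEQ_ne hs0), TEQ_loc_nmem hQ hv s hs] at hw1
      omega
    have haQ : a ∈ Q' := (hv.2.2 a).mpr (Or.inr (by omega))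
    obtain ⟨s', c, hs', hsc⟩ := (TEQ_dvd m _ _).mp
      ((((hg Q' hQ hh).1 hQm).2 a).mp haQ)
    have hs'Q : s' ∉ Q' := fun h => hs' (hQm h)
    have hs'0 : s' ≠ 0 := fun h => hs'Q (by rw [h]; exact Q'.zero_mem)
    have hc0 : c ≠ 0 := by
      rintro rfl
      rw [mul_zero] at hsc
      rcases mul_eq_zero.mp hsc with h7 | h7
      · exact hs'0 h7
      · exact ha0 h7
    have h8 := congrArg (fun z => v (algebraMap A K z)) hsc
    simp only [map_mul] at h8
    rw [hv.1.mul _ _ (TEQ_ne hs'0) (TEQ_ne ha0), hv.1.mul _ _ (TEQ_ne h6) (TEQ_ne hc0),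
      TEQ_loc_nmem hQ hv s' hs'Q, hva] at h8
    have h9 := TEQ_loc_nonneg hQ hv c hc0
    omega
  -- the last part
  have hlast : ∀ (x : K) (μ : ℕ), x ≠ 0 →
      (∀ (Q : Ideal A) (v : K → ℤ), Q.IsPrime → Q.height = 1 → Q ≤ m → LocV Q v →
        0 ≤ v x ∧ (I ≤ Q → (μ : ℤ) ≤ v x)) →
      ∃ u s : A, s ∉ m ∧ x = algebraMap A K t ^ μ * algebraMap A K u / algebraMap A K s := by
    intro x μ hx h
    have htK : algebraMap A K t ^ μ ≠ 0 := pow_ne_zero _ (TEQ_ne ht0)
    obtain ⟨u, s, hs, hus⟩ := TEQ_reg (m := m) hLVQ (x / algebraMap A K t ^ μ)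
      (div_ne_zero hx htK) (fun Q v hQ hh hQm hv => by
        obtain ⟨h1, h2⟩ := h Q v hQ hh hQm hv
        rw [ASA_div hv.1 hx htK, ASA_pow hv.1 (TEQ_ne ht0)]
        by_cases hIQ : I ≤ Q
        · have h3 := hvt1 Q v hQ hh hQm hv hIQ
          have h4 := h2 hIQ
          have h5 : (μ : ℤ) * v (algebraMap A K t) ≤ μ * 1 :=
            mul_le_mul_of_nonneg_left h3 (Int.natCast_nonneg μ)
          linarith
        · rw [hvt0 Q v hQ hh hQm hv hIQ, mul_zero, sub_zero]
          exact h1)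
    refine ⟨u, s, hs, ?_⟩
    rw [mul_div_assoc, ← hus, mul_div_cancel₀ _ htK]
  refine ⟨t, ht0, ⟨htI, fun b hb => ?_⟩, hlast⟩
  by_cases hb0 : b = 0
  · refine ⟨1, fun h => (inferInstance : m.IsPrime).ne_top ((Ideal.eq_top_iff_one m).mpr h), ?_⟩
    rw [hb0, mul_zero]
    exact Ideal.zero_mem _
  · obtain ⟨u, s, hs, hus⟩ := hlast (algebraMap A K b) 1 (TEQ_ne hb0)
      (fun Q v hQ hh hQm hv => ⟨TEQ_loc_nonneg hQ hv b hb0, fun hIQ => by
        push_cast
        exact TEQ_loc_mem hv b hb0 (hIQ hb)⟩)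
    refine ⟨s, hs, ?_⟩
    have hs0 : s ≠ 0 := fun h => hs (by rw [h]; exact m.zero_mem)
    rw [pow_one, eq_div_iff (TEQ_ne hs0), ← map_mul, ← map_mul] at hus
    have h1 : b * s = t * u := IsFractionRing.injective A K hus
    rw [Ideal.mem_span_singleton]
    exact ⟨u, by rw [← h1, mul_comm]⟩

end Pool.Agent.QS
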