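import Pool.Agent.helper32.QS.Spec

set_option autoImplicit false

open scoped BigOperators commutatorElement

namespace QS

/-- the commutator of a Heisenberg pair has `p`-th power `1` -/
theorem CIa_pow {G : Type} [Group G] (p : ℕ) (x y : G) (h : Heis p x y) : ⁅x, y⁆ ^ p = 1 := by
  obtain ⟨hx, hy, _, hzx, hzy⟩ := h
  have h1 : x * y * x⁻¹ = ⁅x, y⁆ * y := by
    rw [commutatorElement_def]; group
  have h2 : (x * y * x⁻¹) ^ p = 1 := by
    rw [conj_pow, hy]; group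
  rw [h1] at h2
  have hc : Commute ⁅x, y⁆ y := hzy
  rw [hc.mul_pow, hy, mul_one] at h2
  exact h2

/-- a prime order element of `S / A` -/
theorem CIa_dvd {G : Type} [Group G] [Finite G] (A S : Subgroup G) (hA : A ≤ S)
    (hc : ∀ x ∈ S, ∀ y ∈ S, ⁅x, y⁆ ∈ A) (p : ℕ) (hp : p.Prime) (z : G) (hz : z ∈ S)
    (hzA : z ∉ A) (hzp : z ^ p = 1) : p ∣ A.relIndex S := by
  have hn : (A.subgroupOf S).Normal := by
    constructor
    intro a ha g
    rw [Subgroup.mem_subgroupOf] at ha ⊢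
    have h1 := hc g.1 g.2 a.1 a.2
    have h2 : ((g * a * g⁻¹ : S) : G) = ⁅(g : G), (a : G)⁆ * (a : G) := by
      rw [commutatorElement_def]
      push_cast
      group
    rw [h2]
    exact A.mul_mem h1 ha
  have h3 : ((⟨z, hz⟩ : S) : S ⧸ A.subgroupOf S) ^ p = 1 := by
    rw [← QuotientGroup.mk_pow, QuotientGroup.eq_one_iff, Subgroup.mem_subgroupOf]
    push_cast
    rw [hzp]
    exact A.one_mem
  have h4 : ((⟨z, hz⟩ : S) : S ⧸ A.subgroupOf S) ≠ 1 := by
    intro h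
    rw [QuotientGroup.eq_one_iff, Subgroup.mem_subgroupOf] at h
    exact hzA h
  haveI : Fact p.Prime := ⟨hp⟩
  have h5 : orderOf ((⟨z, hz⟩ : S) : S ⧸ A.subgroupOf S) = p := orderOf_eq_prime h3 h4
  have h6 : orderOf ((⟨z, hz⟩ : S) : S ⧸ A.subgroupOf S) ∣ Nat.card (S ⧸ A.subgroupOf S) :=
    orderOf_dvd_natCard _
  rw [h5] at h6
  exact h6

theorem CIa (hK3 : K3_stmt) (hFS4 : FS4_stmt) (hSUM : SUM_stmt) (hNIa : NIa_stmt)
    (hFIN : FIN_stmt) : CIa_stmt := by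
  intro k U H _ _ _ _ _ _ _ _ hSL S hS p hp hp5 hcomm hex
  obtain ⟨x, y, hxy, hxyA⟩ := hex
  obtain ⟨e, r, s, hr, hs, hk, hrel, he2, hen, hH, hl, hU⟩ := hSUM k U H hSL S hS
  obtain ⟨hf1, hf2⟩ := hFS4 k U H hSL S hS p hp
  obtain ⟨hfix, _, _, _⟩ := hK3 k U H hSL
  have hpe2 : p ∣ e ^ 2 := by
    rw [← hrel]
    exact CIa_dvd (SA k U H) S hS.hA hS.comm p hp _ (hcomm x y hxy) hxyA (CIa_pow p x y hxy)
  have hpe : p ∣ e := hp.dvd_of_dvd_pow hpe2
  have hpk : p ∣ r ^ s - 1 := by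
    rw [← hk]
    exact hl p hp hpe
  have hmain := hNIa p e (Module.finrank k U) r s hp hp5 hpe he2 hen hr hs hpk
  apply hFIN U H p
  classical
  haveI := Fintype.ofFinite H
  haveI := Fintype.ofFinite U
  have hZfin : Set.Finite {z : H | z ∈ S ∧ z ^ p = 1} := Set.toFinite _
  have hK1 : 1 ≤ Nat.card k := by
    rw [hk]
    exact Nat.one_le_pow _ _ hr.pos
  have hcover : {u : U | u ≠ 0 ∧ ¬ Good p H u} ⊆
      ⋃ z ∈ (hZfin.toFinset.filter (fun z => z ∉ SA k U H)), {u : U | z • u = u} := by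
    rintro u ⟨hu0, hu⟩
    unfold Good at hu
    push Not at hu
    obtain ⟨x', y', h', hx', hy', _⟩ := hu
    simp only [Set.mem_iUnion]
    have hzu : ⁅x', y'⁆ • u = u := by
      have h1 : x'⁻¹ • u = u := by rw [inv_smul_eq_iff, hx']
      have h2 : y'⁻¹ • u = u := by rw [inv_smul_eq_iff, hy']
      rw [commutatorElement_def, mul_smul, mul_smul, mul_smul, h2, h1, hy', hx']
    refine ⟨⁅x', y'⁆, ?_, hzu⟩
    rw [Finset.mem_filter, Set.Finite.mem_toFinset]
    refine ⟨⟨hcomm x' y' h', CIa_pow p x' y' h'⟩, ?_⟩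
    intro hA
    exact h'.2.2.1 (hfix _ hA u hu0 hzu)
  have hcard1 : {u : U | u ≠ 0 ∧ ¬ Good p H u}.ncard ≤
      (⋃ z ∈ (hZfin.toFinset.filter (fun z => z ∉ SA k U H)), {u : U | z • u = u}).ncard :=
    Set.ncard_le_ncard hcover (Set.toFinite _)
  have hcard2 : (⋃ z ∈ (hZfin.toFinset.filter (fun z => z ∉ SA k U H)),
      {u : U | z • u = u}).ncard ≤
      ∑ z ∈ (hZfin.toFinset.filter (fun z => z ∉ SA k U H)), {u : U | z • u = u}.ncard :=
    Finset.set_ncard_biUnion_le _ _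
  have hcard3 : ∑ z ∈ (hZfin.toFinset.filter (fun z => z ∉ SA k U H)),
      {u : U | z • u = u}.ncard ≤
      ∑ _z ∈ (hZfin.toFinset.filter (fun z => z ∉ SA k U H)),
        Nat.card k ^ (Module.finrank k U / p) := by
    apply Finset.sum_le_sum
    intro z hz
    rw [Finset.mem_filter, Set.Finite.mem_toFinset] at hz
    obtain ⟨⟨hzS, hzp⟩, hzA⟩ := hz
    obtain ⟨d, hd, hcd⟩ := hf1 z hzS hzA hzp
    have h1 : {u : U | z • u = u}.ncard = Nat.card {u : U // z • u = u} := rfl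
    rw [h1, hcd]
    apply Nat.pow_le_pow_right hK1
    rw [Nat.le_div_iff_mul_le hp.pos, mul_comm]
    exact hd
  rw [Finset.sum_const, smul_eq_mul] at hcard3
  have hcard4 : (hZfin.toFinset.filter (fun z => z ∉ SA k U H)).card ≤ p * e ^ 2 := by
    refine le_trans (Finset.card_filter_le _ _) ?_
    have h1 : hZfin.toFinset.card = Nat.card {z : H // z ∈ S ∧ z ^ p = 1} := by
      rw [← Set.ncard_eq_toFinset_card _ hZfin]
      rfl
    rw [h1, ← hrel]
    exact hf2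
  have hcard5 : (hZfin.toFinset.filter (fun z => z ∉ SA k U H)).card *
      Nat.card k ^ (Module.finrank k U / p) ≤ p * e ^ 2 * (r ^ s) ^ (Module.finrank k U / p) := by
    rw [← hk]
    exact Nat.mul_le_mul_right _ hcard4
  rw [hk] at hH hU
  rw [hU]
  omega

end QS
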